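import Mathlib

set_option autoImplicit false
set_option maxHeartbeats 4000000

/-!
The Fermat cubic has no rational parametrisation in several variables (characteristic zero).
-/

namespace Pool.Agent.N849.Cusp

open Polynomial

/-- One variable: solutions of `u ^ 3 + v ^ 3 + 1 = 0` in the rational functions over a field of
characteristic zero are constant. -/
theorem flt_one (L : Type*) [Field L] [CharZero L] (F : Type*) [Field F] [Algebra L[X] F]
    [IsFractionRing L[X] F] (u v : F) (h : u ^ 3 + v ^ 3 + 1 = 0) :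
    ∃ c d : L, u = algebraMap L[X] F (C c) ∧ v = algebraMap L[X] F (C d) := by
  classical
  obtain ⟨a1, s1, hs1, hu⟩ := IsFractionRing.div_surjective (A := L[X]) u
  obtain ⟨b1, s2, hs2, hv⟩ := IsFractionRing.div_surjective (A := L[X]) v
  have hs1' : s1 ≠ 0 := nonZeroDivisors.ne_zero hs1
  have hs2' : s2 ≠ 0 := nonZeroDivisors.ne_zero hs2
  have inj : Function.Injective (algebraMap L[X] F) := IsFractionRing.injective L[X] F
  have hS1 : algebraMap L[X] F s1 ≠ 0 := fun h0 => hs1' (inj (by rw [h0, map_zero]))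
  have hS2 : algebraMap L[X] F s2 ≠ 0 := fun h0 => hs2' (inj (by rw [h0, map_zero]))
  obtain ⟨a, ha⟩ : ∃ a, a = a1 * s2 := ⟨_, rfl⟩
  obtain ⟨b, hb⟩ : ∃ b, b = b1 * s1 := ⟨_, rfl⟩
  obtain ⟨w, hw⟩ : ∃ w, w = s1 * s2 := ⟨_, rfl⟩
  have hw0 : w ≠ 0 := hw ▸ mul_ne_zero hs1' hs2'
  have hu' : u * algebraMap L[X] F w = algebraMap L[X] F a := by
    rw [← hu, hw, ha, map_mul, map_mul]; field_simp
  have hv' : v * algebraMap L[X] F w = algebraMap L[X] F b := by
    rw [← hv, hw, hb, map_mul, map_mul]; field_simp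
  have hpoly : a ^ 3 + b ^ 3 + w ^ 3 = 0 := by
    apply inj
    rw [map_add, map_add, map_pow, map_pow, map_pow, ← hu', ← hv', map_zero]
    have : (u * algebraMap L[X] F w) ^ 3 + (v * algebraMap L[X] F w) ^ 3
        + (algebraMap L[X] F w) ^ 3 = (algebraMap L[X] F w) ^ 3 * (u ^ 3 + v ^ 3 + 1) := by ring
    rw [this, h, mul_zero]
  let _inst := EuclideanDomain.gcdMonoid L[X]
  obtain ⟨a', b', hag, hbg, hun⟩ := extract_gcd a b
  have hcop : IsCoprime a' b' := (gcd_isUnit_iff a' b').1 hun
  obtain ⟨g, hg⟩ : ∃ g, g = gcd a b := ⟨_, rfl⟩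
  rw [← hg] at hag hbg
  have hgw : g ∣ w := by
    have h1 : g ^ 3 ∣ w ^ 3 := by
      have : w ^ 3 = g ^ 3 * (-(a' ^ 3 + b' ^ 3)) := by
        have h2 : w ^ 3 = -(a ^ 3 + b ^ 3) := by linear_combination hpoly
        rw [h2, hag, hbg]; ring
      exact ⟨_, this⟩
    exact (IsIntegrallyClosed.pow_dvd_pow_iff (by norm_num)).1 h1
  obtain ⟨w', hw'⟩ := hgw
  have hg0 : g ≠ 0 := by rintro rfl; exact hw0 (by rw [hw', zero_mul])
  have hw'0 : w' ≠ 0 := by rintro rfl; exact hw0 (by rw [hw', mul_zero])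
  have hpoly' : a' ^ 3 + b' ^ 3 + w' ^ 3 = 0 := by
    have : g ^ 3 * (a' ^ 3 + b' ^ 3 + w' ^ 3) = 0 := by
      have e : g ^ 3 * (a' ^ 3 + b' ^ 3 + w' ^ 3) = (g * a') ^ 3 + (g * b') ^ 3 + (g * w') ^ 3 := by
        ring
      rw [e, ← hag, ← hbg, ← hw', hpoly]
    exact (mul_eq_zero.1 this).resolve_left (pow_ne_zero 3 hg0)
  have key : a'.natDegree = 0 ∧ b'.natDegree = 0 ∧ w'.natDegree = 0 := by
    have aux : ∀ p q r : L[X], p = 0 → IsCoprime p q → p ^ 3 + q ^ 3 + r ^ 3 = 0 →
        q.natDegree = 0 ∧ r.natDegree = 0 := by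
      rintro p q r rfl hc he
      have hq : IsUnit q := isCoprime_zero_left.1 hc
      have hq0 : q.natDegree = 0 := natDegree_eq_zero_of_isUnit hq
      refine ⟨hq0, ?_⟩
      have h3 : r ^ 3 = -q ^ 3 := by linear_combination he
      have h4 : (r ^ 3).natDegree = 0 := by
        rw [h3, natDegree_neg, natDegree_pow, hq0]
      rw [natDegree_pow] at h4
      omega
    by_cases ha0 : a' = 0
    · obtain ⟨h1, h2⟩ := aux a' b' w' ha0 hcop hpoly'
      exact ⟨by rw [ha0, natDegree_zero], h1, h2⟩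
    by_cases hb0 : b' = 0
    · obtain ⟨h1, h2⟩ := aux b' a' w' hb0 hcop.symm (by rw [← hpoly']; ring)
      exact ⟨h1, by rw [hb0, natDegree_zero], h2⟩
    have := Polynomial.flt (k := L) (n := 3) le_rfl (by norm_num) ha0 hb0
      (c := -w') (neg_ne_zero.2 hw'0) hcop (by linear_combination hpoly')
    exact ⟨this.1, this.2.1, by simpa using this.2.2⟩
  obtain ⟨ka, kb, kw⟩ := key
  rw [natDegree_eq_zero] at ka kb kw
  obtain ⟨α, rfl⟩ := ka
  obtain ⟨β, rfl⟩ := kb
  obtain ⟨γ, rfl⟩ := kw
  have hγ : γ ≠ 0 := by rintro rfl; simp at hw'0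
  have hG : algebraMap L[X] F g ≠ 0 := fun h0 => hg0 (inj (by rw [h0, map_zero]))
  have hΓ : algebraMap L[X] F (C γ) ≠ 0 := fun h0 => hw'0 (inj (by rw [h0, map_zero]))
  refine ⟨α / γ, β / γ, ?_, ?_⟩
  · have e1 : u * (algebraMap L[X] F g * algebraMap L[X] F (C γ)) =
        algebraMap L[X] F g * algebraMap L[X] F (C α) := by
      rw [← map_mul, ← map_mul, ← hw', ← hag]; exact hu'
    have e2 : algebraMap L[X] F (C α) = algebraMap L[X] F (C (α / γ)) * algebraMap L[X] F (C γ) := by
      rw [← map_mul, ← C_mul, div_mul_cancel₀ _ hγ]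
    rw [e2] at e1
    have e3 : (u - algebraMap L[X] F (C (α / γ))) *
        (algebraMap L[X] F g * algebraMap L[X] F (C γ)) = 0 := by linear_combination e1
    have := (mul_eq_zero.1 e3).resolve_right (mul_ne_zero hG hΓ)
    exact sub_eq_zero.1 this
  · have e1 : v * (algebraMap L[X] F g * algebraMap L[X] F (C γ)) =
        algebraMap L[X] F g * algebraMap L[X] F (C β) := by
      rw [← map_mul, ← map_mul, ← hw', ← hbg]; exact hv'
    have e2 : algebraMap L[X] F (C β) = algebraMap L[X] F (C (β / γ)) * algebraMap L[X] F (C γ) := by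
      rw [← map_mul, ← C_mul, div_mul_cancel₀ _ hγ]
    rw [e2] at e1
    have e3 : (v - algebraMap L[X] F (C (β / γ))) *
        (algebraMap L[X] F g * algebraMap L[X] F (C γ)) = 0 := by linear_combination e1
    have := (mul_eq_zero.1 e3).resolve_right (mul_ne_zero hG hΓ)
    exact sub_eq_zero.1 this

/-- Several variables, for any model of the field of fractions. -/
theorem flt_gen (K : Type) [Field K] [CharZero K] (n : ℕ) :
    ∀ (F : Type) [Field F] [Algebra (MvPolynomial (Fin n) K) F]
      [IsFractionRing (MvPolynomial (Fin n) K) F] (u v : F), u ^ 3 + v ^ 3 + 1 = 0 →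
      ∃ c d : K, u = algebraMap (MvPolynomial (Fin n) K) F (MvPolynomial.C c) ∧
        v = algebraMap (MvPolynomial (Fin n) K) F (MvPolynomial.C d) := by
  induction n with
  | zero =>
    intro F _ _ _ u v _
    have aux : ∀ x : F, ∃ c : K, x = algebraMap (MvPolynomial (Fin 0) K) F (MvPolynomial.C c) := by
      intro x
      obtain ⟨p, q, hq, rfl⟩ := IsFractionRing.div_surjective (A := MvPolynomial (Fin 0) K) x
      have hq' : q ≠ 0 := nonZeroDivisors.ne_zero hq
      obtain ⟨p0, rfl⟩ := MvPolynomial.C_surjective (Fin 0) p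
      obtain ⟨q0, rfl⟩ := MvPolynomial.C_surjective (Fin 0) q
      have hq0 : q0 ≠ 0 := by rintro rfl; simp at hq'
      have hQ : algebraMap (MvPolynomial (Fin 0) K) F (MvPolynomial.C q0) ≠ 0 := fun h0 =>
        hq' (IsFractionRing.injective (MvPolynomial (Fin 0) K) F (by rw [h0, map_zero]))
      refine ⟨p0 / q0, ?_⟩
      rw [div_eq_iff hQ, ← map_mul, ← MvPolynomial.C_mul, div_mul_cancel₀ _ hq0]
    obtain ⟨c, hc⟩ := aux u
    obtain ⟨d, hd⟩ := aux v
    exact ⟨c, d, hc, hd⟩
  | succ n ih =>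
    intro F _ _ _ u v h
    let P := MvPolynomial (Fin n) K
    let L := FractionRing P
    let e : MvPolynomial (Fin (n + 1)) K →+* P[X] :=
      (MvPolynomial.finSuccEquiv K n).toRingEquiv.toRingHom
    let f1 : P[X] →+* L[X] := Polynomial.mapRingHom (algebraMap P L)
    let F' := FractionRing L[X]
    let φ0 : MvPolynomial (Fin (n + 1)) K →+* F' := (algebraMap L[X] F').comp (f1.comp e)
    have inj2 : Function.Injective (algebraMap L[X] F') := IsFractionRing.injective L[X] F'
    have injP : Function.Injective (algebraMap P L) := IsFractionRing.injective P L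
    have hφ0 : Function.Injective φ0 := by
      have h1 : Function.Injective f1 := Polynomial.map_injective _ injP
      have h2 : Function.Injective e := (MvPolynomial.finSuccEquiv K n).injective
      exact inj2.comp (h1.comp h2)
    let φ : F →+* F' := IsFractionRing.lift hφ0
    have hφ : Function.Injective φ := φ.injective
    have hcharL : CharZero L := by
      have : Function.Injective (algebraMap K L) := (algebraMap K L).injective
      exact charZero_of_injective_algebraMap this
    obtain ⟨c, d, hc, hd⟩ := flt_one L F' (φ u) (φ v) (by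
      rw [← map_pow, ← map_pow, ← map_one φ, ← map_add, ← map_add, h, map_zero])
    have hcd : c ^ 3 + d ^ 3 + 1 = 0 := by
      have h1 : algebraMap L[X] F' (C (c ^ 3 + d ^ 3 + 1)) = 0 := by
        rw [C_add, C_add, C_pow, C_pow, C_1, map_add, map_add, map_pow, map_pow, map_one,
          ← hc, ← hd]
        rw [← map_pow, ← map_pow, ← map_one φ, ← map_add, ← map_add, h, map_zero]
      have h2 : C (c ^ 3 + d ^ 3 + 1) = 0 := inj2 (by rw [h1, map_zero])
      exact C_eq_zero.1 h2
    obtain ⟨c0, d0, hc0, hd0⟩ := ih L c d hcd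
    have comp : ∀ x : K, φ (algebraMap (MvPolynomial (Fin (n + 1)) K) F (MvPolynomial.C x)) =
        algebraMap L[X] F' (C (algebraMap P L (MvPolynomial.C x))) := by
      intro x
      have h1 : φ (algebraMap (MvPolynomial (Fin (n + 1)) K) F (MvPolynomial.C x)) =
          φ0 (MvPolynomial.C x) := IsFractionRing.lift_algebraMap hφ0 _
      rw [h1]
      have h2 : e (MvPolynomial.C x) = Polynomial.C (MvPolynomial.C x) := by
        have := (MvPolynomial.finSuccEquiv K n).commutes x
        exact this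
      have h3 : f1 (Polynomial.C (MvPolynomial.C x)) =
          C (algebraMap P L (MvPolynomial.C x)) := Polynomial.map_C _
      change algebraMap L[X] F' (f1 (e (MvPolynomial.C x))) = _
      rw [h2, h3]
    refine ⟨c0, d0, hφ ?_, hφ ?_⟩
    · rw [comp, ← hc0]; exact hc
    · rw [comp, ← hd0]; exact hd

/-- The statement for the standard field of fractions. -/
theorem flt (K : Type) [Field K] [CharZero K] (n : ℕ)
    (u v : FractionRing (MvPolynomial (Fin n) K)) (h : u ^ 3 + v ^ 3 + 1 = 0) :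
    ∃ c d : K, u = algebraMap K _ c ∧ v = algebraMap K _ d := by
  obtain ⟨c, d, hc, hd⟩ := flt_gen K n (FractionRing (MvPolynomial (Fin n) K)) u v h
  refine ⟨c, d, ?_, ?_⟩
  · rw [hc, IsScalarTower.algebraMap_apply K (MvPolynomial (Fin n) K)
      (FractionRing (MvPolynomial (Fin n) K)) c]; rfl
  · rw [hd, IsScalarTower.algebraMap_apply K (MvPolynomial (Fin n) K)
      (FractionRing (MvPolynomial (Fin n) K)) d]; rfl


end Pool.Agent.N849.Cusp
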