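import Pool.Agent.N212.Stm
import Pool.Agent.N849.Cusp.FLT

set_option autoImplicit false

namespace Pool.Agent.N849.Cusp

/-- The statement used by the project. -/
theorem stmFLT : Pool.Agent.N212.StmFLT := fun K _ _ n u v h => flt K n u v h

end Pool.Agent.N849.Cusp
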